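import Pool.Agent.H62.ExcCount

set_option autoImplicit false

/-!
# Class group torsion of exceptional fields
-/

namespace Pool.Agent.H62.Exc

open NumberField Filter Topology Finset Pool.Agent.W401.Cheb Pool.Agent.Q122.TF

/-- the size condition -/
theorem size_lt (n l D y : ℕ) (hn : 2 ≤ n) (hl : 1 ≤ l) (hD : 0 < D)
    (hy : (y : ℝ) ≤ (D : ℝ) ^ (1 / (2 * l * (n - 1)) : ℝ) / 301 ^ n) :
    (2 * 150 ^ l) ^ (n * (n - 1)) * y ^ (2 * l * (n - 1)) < D := by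
  obtain ⟨m, rfl⟩ : ∃ m, n = m + 2 := ⟨n - 2, by omega⟩
  have e1 : m + 2 - 1 = m + 1 := rfl
  rw [e1]
  set k := 2 * l * (m + 1) with hk
  have hk0 : k ≠ 0 := by positivity
  rcases Nat.eq_zero_or_pos y with h0 | h0
  · rw [h0, zero_pow hk0, mul_zero]; exact hD
  have hDr : (0 : ℝ) < D := by exact_mod_cast hD
  have h1 : (2 * 150 ^ l) ^ ((m + 2) * (m + 1)) < (301 ^ (m + 2)) ^ k := by
    have h2 : (2 * 150 ^ l : ℕ) ≤ 300 ^ l := by
      calc 2 * 150 ^ l ≤ 2 ^ l * 150 ^ l := by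
            gcongr
            exact Nat.le_self_pow (by omega) 2
        _ = 300 ^ l := by rw [← mul_pow]; norm_num
    calc (2 * 150 ^ l) ^ ((m + 2) * (m + 1)) ≤ (300 ^ l) ^ ((m + 2) * (m + 1)) :=
          Nat.pow_le_pow_left h2 _
      _ = 300 ^ (l * ((m + 2) * (m + 1))) := by rw [← pow_mul]
      _ < 301 ^ (l * ((m + 2) * (m + 1))) := by
          apply Nat.pow_lt_pow_left (by norm_num)
          positivity
      _ ≤ 301 ^ ((m + 2) * k) := by
          apply Nat.pow_le_pow_right (by norm_num)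
          rw [hk]
          nlinarith [Nat.zero_le (l * ((m + 2) * (m + 1)))]
      _ = (301 ^ (m + 2)) ^ k := by rw [← pow_mul]
  have h2 : (301 ^ (m + 2)) ^ k * y ^ k ≤ D := by
    rw [le_div_iff₀ (by positivity)] at hy
    have h3 : ((301 ^ (m + 2) * y : ℕ) : ℝ) ^ k ≤
        ((D : ℝ) ^ (1 / (2 * l * (((m + 2 : ℕ) : ℝ) - 1)) : ℝ)) ^ k := by
      apply pow_le_pow_left₀ (by positivity)
      push_cast at hy ⊢
      linarith
    rw [← Real.rpow_natCast ((D : ℝ) ^ _), ← Real.rpow_mul hDr.le] at h3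
    have h4 : 1 / (2 * l * (((m + 2 : ℕ) : ℝ) - 1)) * (k : ℝ) = 1 := by
      have hlr : (0 : ℝ) < l := by exact_mod_cast hl
      have hmr : (0 : ℝ) ≤ m := by positivity
      rw [hk]
      push_cast
      have : (m : ℝ) + 2 - 1 ≠ 0 := by linarith
      field_simp
      ring
    rw [h4, Real.rpow_one] at h3
    rw [← mul_pow]
    exact_mod_cast h3
  calc (2 * 150 ^ l) ^ ((m + 2) * (m + 1)) * y ^ k < (301 ^ (m + 2)) ^ k * y ^ k := by
        apply Nat.mul_lt_mul_of_pos_right h1 (by positivity)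
    _ ≤ D := h2

theorem exc_bound (M : Type) [Field M] [NumberField M] [IsGalois ℚ M] (σ : M ≃ₐ[ℚ] M) (n : ℕ)
    (hn : 2 ≤ n) (ε : ℝ) (hε : 0 < ε) :
    ∃ C : ℝ, 0 < C ∧ ∀ (K : Type) [Field K] [NumberField K], Module.finrank ℚ K = n →
      Exceptional M σ K → ∀ l : ℕ, 1 ≤ l →
      (Nat.card {c : ClassGroup (𝓞 K) // c ^ l = 1} : ℝ) ≤
        C * |(discr K : ℝ)| ^ (1 / 2 - 1 / (2 * l * (n - 1)) + ε : ℝ) := by
  set δ : ℝ := min ε 1 / 4 with hδ
  have hδ0 : 0 < δ := by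
    have : 0 < min ε 1 := lt_min hε one_pos
    positivity
  have hδε : 4 * δ ≤ ε := by
    rw [hδ]; have := min_le_left ε 1; linarith
  have hδ1 : 4 * δ ≤ 1 := by
    rw [hδ]; have := min_le_right ε 1; linarith
  obtain ⟨E, hE0, hE⟩ := torsor M
  obtain ⟨c, C0, hc0, hC00, hPA⟩ := count_lower M σ E hE0 hE δ hδ0 (by linarith)
  obtain ⟨C1, hC10, hC1⟩ := W_le n hn
  -- (log D)^n ≤ (n/δ)^n D^δ
  set C2 : ℝ := C0 + 2 / δ with hC2
  have hC20 : 0 < C2 := by positivity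
  have hnr : (2 : ℝ) ≤ n := by exact_mod_cast hn
  set C3 : ℝ := C1 * (n / δ) ^ n with hC3
  have hC30 : 0 < C3 := by positivity
  set a : ℝ := c / 301 ^ n with ha
  have ha0 : 0 < a := by positivity
  refine ⟨C3 * (2 / a + 2 * C2 / a), by positivity, ?_⟩
  intro K _ _ hK hexc l hl
  set D := (discr K).natAbs with hD
  have hDK : |(discr K : ℝ)| = (D : ℝ) := by
    rw [hD, Nat.cast_natAbs]
    push_cast
    rfl
  have hD2 : 2 < D := by
    have := abs_discr_gt_two (K := K) (by rw [hK]; omega)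
    rw [Int.abs_eq_natAbs] at this
    exact_mod_cast this
  have hDr : (3 : ℝ) ≤ D := by exact_mod_cast hD2
  have hDpos : (0 : ℝ) < D := by linarith
  set T : ℝ := (Nat.card {c : ClassGroup (𝓞 K) // c ^ l = 1} : ℝ) with hT
  have hT0 : 0 ≤ T := by positivity
  set θ : ℝ := 1 / (2 * l * (n - 1)) with hθ
  have hlr : (1 : ℝ) ≤ l := by exact_mod_cast hl
  have hn1 : (1 : ℝ) ≤ (n : ℝ) - 1 := by linarith
  have hθ0 : 0 < θ := by positivity
  have hθ1 : θ ≤ 1 := by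
    rw [hθ, div_le_one (by positivity)]
    nlinarith
  obtain ⟨N, hN1, hN2⟩ := hC1 K hK
  have hW : WW K n N ≤ C3 * (D : ℝ) ^ (1 / 2 + δ) := by
    rw [hDK] at hN2
    have h1 : Real.log D ≤ (D : ℝ) ^ (δ / n) / (δ / n) :=
      Real.log_le_rpow_div hDpos.le (by positivity)
    have h0 : 0 ≤ Real.log D := Real.log_nonneg (by linarith)
    have h2 : (Real.log D) ^ n ≤ (n / δ) ^ n * (D : ℝ) ^ δ := by
      calc (Real.log D) ^ n ≤ ((D : ℝ) ^ (δ / n) / (δ / n)) ^ n := pow_le_pow_left₀ h0 h1 n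
        _ = (n / δ) ^ n * ((D : ℝ) ^ (δ / n)) ^ n := by
            rw [← mul_pow]; congr 1; field_simp
        _ = (n / δ) ^ n * (D : ℝ) ^ δ := by
            rw [← Real.rpow_natCast ((D : ℝ) ^ (δ / n)), ← Real.rpow_mul hDpos.le]
            congr 2
            field_simp
    calc WW K n N ≤ C1 * √(D : ℝ) * (Real.log D) ^ n := hN2
      _ ≤ C1 * √(D : ℝ) * ((n / δ) ^ n * (D : ℝ) ^ δ) := by gcongr
      _ = C3 * ((D : ℝ) ^ (1 / 2 : ℝ) * (D : ℝ) ^ δ) := by rw [hC3, Real.sqrt_eq_rpow]; ring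
      _ = C3 * (D : ℝ) ^ (1 / 2 + δ) := by rw [← Real.rpow_add hDpos]
  set y : ℝ := (D : ℝ) ^ θ / 301 ^ n with hy
  have hDθ : 0 < (D : ℝ) ^ θ := Real.rpow_pos_of_pos hDpos θ
  have hy0 : 0 < y := by positivity
  set G0 := (pr ⌊y⌋₊).filter (fun p => ¬ p ∣ E ∧ xp M σ p ≠ 0) with hG0
  set G := G0.filter (fun p => ¬ p ∣ D) with hG
  have hmain := ev2 hK hn hl N hN1 G 1 ⌊y⌋₊ (by
    intro p hp
    rw [hG, hG0, mem_filter, mem_filter, pr, mem_filter] at hp
    obtain ⟨⟨⟨-, hpp⟩, hpE, hpx⟩, hpD⟩ := hp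
    refine ⟨hpp, hpD, ?_⟩
    have : Fact p.Prime := ⟨hpp⟩
    have h1 : Nonempty {φ : 𝓞 M →+* AlgebraicClosure (ZMod p) // HasFrob p φ σ} := by
      by_contra h
      apply hpx
      rw [not_nonempty_iff] at h
      unfold xp
      rw [dif_pos hpp]
      exact Nat.card_of_isEmpty
    obtain ⟨ψ, hψ⟩ := h1
    exact exists_norm hexc p (hE p hpE) ψ hψ) (by
    intro U hU
    rw [mem_powersetCard] at hU
    obtain ⟨p, rfl⟩ := Finset.card_eq_one.1 hU.2
    rw [Finset.prod_singleton]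
    have h1 : p ∈ G := hU.1 (Finset.mem_singleton_self p)
    rw [hG, hG0, mem_filter, mem_filter, pr, mem_filter, mem_range] at h1
    omega) (by
    refine size_lt n l D _ hn hl (by omega) ?_
    exact Nat.floor_le hy0.le)
  rw [Nat.choose_one_right, ← hT] at hmain
  -- lower bound for the number of primes
  have hcard : (G0.card : ℝ) ≤ G.card + D.primeFactors.card := by
    have h1 : G0 ⊆ G ∪ D.primeFactors := by
      intro p hp
      rw [mem_union, hG, mem_filter]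
      by_cases h : p ∣ D
      · right
        rw [hG0, mem_filter, pr, mem_filter] at hp
        exact Nat.mem_primeFactors.mpr ⟨hp.1.2, h, by omega⟩
      · left; exact ⟨hp, h⟩
    have h2 := (card_le_card h1).trans (card_union_le _ _)
    exact_mod_cast h2
  have hDδ : 1 ≤ (D : ℝ) ^ δ := Real.one_le_rpow (by linarith) hδ0.le
  have hlogD : Real.log D ≤ (D : ℝ) ^ δ / δ := Real.log_le_rpow_div hDpos.le hδ0
  have hbad : C0 + (D.primeFactors.card : ℝ) ≤ C2 * (D : ℝ) ^ δ := by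
    have h1 := Pool.Agent.TH869.EVF.card_primeFactors_le D (by omega)
    calc C0 + (D.primeFactors.card : ℝ) ≤ C0 + 2 * Real.log D := by linarith
      _ ≤ C0 * (D : ℝ) ^ δ + 2 * ((D : ℝ) ^ δ / δ) := by
          have := le_mul_of_one_le_right hC00.le hDδ
          linarith
      _ = C2 * (D : ℝ) ^ δ := by rw [hC2]; ring
  have hypow : (D : ℝ) ^ (θ - δ) / 301 ^ n ≤ y ^ (1 - δ) := by
    rw [hy, Real.div_rpow hDθ.le (by positivity), ← Real.rpow_mul hDpos.le]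
    have h1 : ((301 : ℝ) ^ n) ^ (1 - δ) ≤ 301 ^ n := by
      calc ((301 : ℝ) ^ n) ^ (1 - δ) ≤ ((301 : ℝ) ^ n) ^ (1 : ℝ) :=
            Real.rpow_le_rpow_of_exponent_le (one_le_pow₀ (by norm_num)) (by linarith)
        _ = 301 ^ n := Real.rpow_one _
    have h2 : (D : ℝ) ^ (θ - δ) ≤ (D : ℝ) ^ (θ * (1 - δ)) := by
      apply Real.rpow_le_rpow_of_exponent_le (by linarith)
      nlinarith
    have h3 : (0 : ℝ) < ((301 : ℝ) ^ n) ^ (1 - δ) := Real.rpow_pos_of_pos (by positivity) _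
    gcongr
  have hg := hPA y hy0
  rw [← hG0] at hg
  set g : ℝ := (G.card : ℝ) with hgdef
  have hg0 : 0 ≤ g := by positivity
  set A : ℝ := (D : ℝ) ^ (θ - δ) with hA
  have hA0 : 0 < A := Real.rpow_pos_of_pos hDpos _
  have hgA : a * A - C2 * (D : ℝ) ^ δ ≤ g := by
    have h1 : c * (A / 301 ^ n) ≤ c * y ^ (1 - δ) := by gcongr
    have e : a * A = c * (A / 301 ^ n) := by rw [ha]; ring
    rw [e]
    linarith
  have hmain2 : g * T ≤ C3 * (D : ℝ) ^ (1 / 2 + δ) := hmain.trans hW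
  have htriv : T ≤ C3 * (D : ℝ) ^ (1 / 2 + δ) := (tor_trivial hK N l hN1).trans hW
  have hDe : ∀ u : ℝ, u ≤ 1 / 2 - θ + ε → (D : ℝ) ^ u ≤ (D : ℝ) ^ (1 / 2 - θ + ε) := fun u hu =>
    Real.rpow_le_rpow_of_exponent_le (by linarith) hu
  rw [hDK]
  set Z : ℝ := (D : ℝ) ^ (1 / 2 - θ + ε) with hZ
  have hZ0 : 0 < Z := Real.rpow_pos_of_pos hDpos _
  have h3 : (D : ℝ) ^ (1 / 2 + δ) = (D : ℝ) ^ (1 / 2 - θ + 2 * δ) * A := by
    rw [hA, ← Real.rpow_add hDpos]; congr 1; ring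
  have hpos1 : 0 ≤ 2 * C2 / a := by positivity
  have hpos2 : 0 ≤ 2 / a := by positivity
  rcases le_or_gt (C2 * (D : ℝ) ^ δ) (a / 2 * A) with hcase | hcase
  · have h1 : a / 2 * A ≤ g := by
      have e : a * A = a / 2 * A + a / 2 * A := by ring
      rw [e] at hgA
      linarith
    have h2 : T * (a / 2 * A) ≤ C3 * (D : ℝ) ^ (1 / 2 + δ) := by
      refine le_trans ?_ hmain2
      rw [mul_comm g T]
      exact mul_le_mul_of_nonneg_left h1 hT0
    have h4 : T * (a / 2) ≤ C3 * (D : ℝ) ^ (1 / 2 - θ + 2 * δ) := by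
      refine le_of_mul_le_mul_right ?_ hA0
      calc T * (a / 2) * A = T * (a / 2 * A) := by ring
        _ ≤ C3 * (D : ℝ) ^ (1 / 2 + δ) := h2
        _ = _ := by rw [h3]; ring
    have h5 : T * (a / 2) ≤ C3 * Z :=
      h4.trans (by have := hDe (1 / 2 - θ + 2 * δ) (by linarith); gcongr)
    have h6 : T ≤ 2 / a * (C3 * Z) := by
      rw [div_mul_eq_mul_div, le_div_iff₀ ha0]
      linarith
    calc T ≤ 2 / a * (C3 * Z) := h6
      _ = C3 * (2 / a) * Z := by ring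
      _ ≤ C3 * (2 / a + 2 * C2 / a) * Z := by
          gcongr
          linarith
  · have h4 : A ≤ 2 * C2 / a * (D : ℝ) ^ δ := by
      have e : A = 2 / a * (a / 2 * A) := by field_simp
      rw [e]
      calc 2 / a * (a / 2 * A) ≤ 2 / a * (C2 * (D : ℝ) ^ δ) := by gcongr
        _ = _ := by ring
    have h5 : (D : ℝ) ^ (1 / 2 - θ + 2 * δ) * (D : ℝ) ^ δ ≤ Z := by
      rw [← Real.rpow_add hDpos]
      exact hDe _ (by linarith)
    calc T ≤ C3 * (D : ℝ) ^ (1 / 2 + δ) := htriv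
      _ = C3 * ((D : ℝ) ^ (1 / 2 - θ + 2 * δ) * A) := by rw [h3]
      _ ≤ C3 * ((D : ℝ) ^ (1 / 2 - θ + 2 * δ) * (2 * C2 / a * (D : ℝ) ^ δ)) := by gcongr
      _ = C3 * (2 * C2 / a) * ((D : ℝ) ^ (1 / 2 - θ + 2 * δ) * (D : ℝ) ^ δ) := by ring
      _ ≤ C3 * (2 * C2 / a) * Z := by gcongr
      _ ≤ C3 * (2 / a + 2 * C2 / a) * Z := by
          gcongr
          linarith

end Pool.Agent.H62.Exc
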