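import Pool.Agent.H62.ExcNorm
import Pool.Graph.R_seed8.TH869.EVF.Fin1
import Pool.Graph.R_pool_sql_team_seeded_3997aac3.Q122.TF.Ev2

set_option autoImplicit false

/-!
# Counting the primes with a given Frobenius element
-/

namespace Pool.Agent.H62.Exc

open NumberField Filter Topology Finset Pool.Agent.W401.Cheb

theorem xp_le {M : Type} [Field M] [NumberField M] [IsGalois ℚ M] (σ : M ≃ₐ[ℚ] M) {p : ℕ}
    [Fact p.Prime] (h : TorAt M p) : xp M σ p ≤ Nat.card Gal(M/ℚ) := by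
  rw [← sum_xp h]
  exact Finset.single_le_sum (f := fun g => xp M g p) (fun _ _ => Nat.zero_le _) (Finset.mem_univ σ)

theorem PA_one (y : ℝ) : Pool.Agent.TH869.EVF.PA 1 1 y = pr ⌊y⌋₊ := by
  unfold Pool.Agent.TH869.EVF.PA pr
  ext p
  simp only [mem_filter, mem_Icc, mem_range]
  constructor
  · rintro ⟨⟨h1, h2⟩, h3, -⟩
    exact ⟨by omega, h3⟩
  · rintro ⟨h1, h2⟩
    exact ⟨⟨h2.one_lt.le, by omega⟩, h2, Subsingleton.elim _ _⟩

theorem count_lower (M : Type) [Field M] [NumberField M] [IsGalois ℚ M] (σ : M ≃ₐ[ℚ] M) (E : ℕ)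
    (hE : 0 < E) (hT : ∀ (p : ℕ) [Fact p.Prime], ¬ p ∣ E → TorAt M p) (δ : ℝ) (hδ : 0 < δ)
    (hδ1 : δ ≤ 1) :
    ∃ c C0 : ℝ, 0 < c ∧ 0 < C0 ∧ ∀ y : ℝ, 0 < y → c * y ^ (1 - δ) - C0 ≤
      (((pr ⌊y⌋₊).filter (fun p => ¬ p ∣ E ∧ xp M σ p ≠ 0)).card : ℝ) := by
  obtain ⟨c, C0, hc, hC0, hPA⟩ := Pool.Agent.TH869.EVF.PA_lower 1 1 one_pos
    (Nat.coprime_one_left 1) δ hδ hδ1
  have hch := chebotarev M σ
  have hev := hch.eventually (lt_mem_nhds (show (1 : ℝ) / 2 < 1 by norm_num))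
  obtain ⟨N0, hN0⟩ := eventually_atTop.mp hev
  set g : ℕ := Nat.card Gal(M/ℚ) with hg
  have hg0 : 0 < g := Nat.card_pos
  have hgr : (0 : ℝ) < g := by exact_mod_cast hg0
  set B : ℝ := ∑ p ∈ E.divisors, (xp M σ p : ℝ) with hB
  have hB0 : 0 ≤ B := Finset.sum_nonneg fun _ _ => by positivity
  refine ⟨c / (2 * g), (C0 + N0 + 1 + B) / g, by positivity, by positivity, ?_⟩
  intro y hy
  set N := ⌊y⌋₊ with hN
  have h1 := hPA y hy
  rw [PA_one, ← hN] at h1
  have hpi : ((pr N).card : ℝ) = (Nat.primeCounting N : ℝ) := by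
    rw [Nat.primeCounting, Nat.primeCounting', Nat.count_eq_card_filter_range]
    rfl
  have h2 : (Nat.primeCounting N : ℝ) / 2 - N0 ≤ ∑ p ∈ pr N, (xp M σ p : ℝ) := by
    rcases le_or_gt N0 N with h | h
    · have h3 := hN0 N h
      have h4 : (0 : ℝ) ≤ Nat.primeCounting N := by positivity
      rcases h4.eq_or_lt with h5 | h5
      · rw [← h5] at h3
        simp at h3
        norm_num at h3
      · rw [lt_div_iff₀ h5] at h3
        have : (0 : ℝ) ≤ N0 := by positivity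
        linarith
    · have h3 : (0 : ℝ) ≤ ∑ p ∈ pr N, (xp M σ p : ℝ) := Finset.sum_nonneg fun _ _ => by positivity
      have h4 : (pr N).card ≤ N + 1 := (Finset.card_filter_le _ _).trans (by simp)
      have h5 : ((pr N).card : ℝ) ≤ N0 := by exact_mod_cast (by omega : (pr N).card ≤ N0)
      rw [hpi] at h5
      have h6 : (0 : ℝ) ≤ Nat.primeCounting N := by positivity
      linarith
  set G := (pr N).filter (fun p => ¬ p ∣ E ∧ xp M σ p ≠ 0) with hG
  have h3 : ∑ p ∈ pr N, (xp M σ p : ℝ) ≤ G.card * g + B := by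
    have h4 : ∑ p ∈ pr N, (xp M σ p : ℝ) ≤
        ∑ p ∈ G, (xp M σ p : ℝ) + ∑ p ∈ E.divisors, (xp M σ p : ℝ) := by
      have h5 : ∑ p ∈ pr N, (xp M σ p : ℝ) = ∑ p ∈ (pr N).filter (fun p => xp M σ p ≠ 0), (xp M σ p : ℝ) := by
        rw [Finset.sum_filter]
        refine Finset.sum_congr rfl fun p _ => ?_
        split_ifs with h
        · rfl
        · push Not at h
          rw [h]; simp
      rw [h5]
      have h6 : (pr N).filter (fun p => xp M σ p ≠ 0) ⊆ G ∪ E.divisors := by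
        intro p hp
        rw [mem_filter] at hp
        rw [mem_union, hG, mem_filter]
        by_cases h : p ∣ E
        · right; exact Nat.mem_divisors.mpr ⟨h, hE.ne'⟩
        · left; exact ⟨hp.1, h, hp.2⟩
      refine (Finset.sum_le_sum_of_subset_of_nonneg h6 fun _ _ _ => by positivity).trans ?_
      have h7 := Finset.sum_union_inter (s₁ := G) (s₂ := E.divisors) (f := fun p => (xp M σ p : ℝ))
      have h8 : 0 ≤ ∑ p ∈ G ∩ E.divisors, (xp M σ p : ℝ) := Finset.sum_nonneg fun _ _ => by positivity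
      linarith
    have h5 : ∑ p ∈ G, (xp M σ p : ℝ) ≤ G.card * g := by
      rw [← nsmul_eq_mul]
      refine Finset.sum_le_card_nsmul _ _ _ fun p hp => ?_
      rw [hG, mem_filter, pr, mem_filter] at hp
      have : Fact p.Prime := ⟨hp.1.2⟩
      exact_mod_cast xp_le σ (hT p hp.2.1)
    linarith
  have h4 : c * y ^ (1 - δ) - C0 ≤ Nat.primeCounting N := by rw [← hpi]; exact h1
  have h5 : (c * y ^ (1 - δ) - C0) / 2 - N0 - B ≤ G.card * g := by linarith
  have h6 : c / (2 * g) * y ^ (1 - δ) - (C0 + N0 + 1 + B) / g =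
      (c * y ^ (1 - δ) / 2 - (C0 + N0 + 1 + B)) / g := by
    field_simp
  rw [h6, div_le_iff₀ hgr]
  linarith

end Pool.Agent.H62.Exc
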