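import Pool.Agent.H62.ExcNorm

set_option autoImplicit false

/-!
# A criterion for exceptionality
-/

namespace Pool.Agent.H62.Exc

open NumberField

/-- If an automorphism fixing `K` commutes with no nontrivial automorphism fixing `M`, then `K` is
exceptional over `M`. -/
theorem exceptional_of_comm {M : Type} [Field M] [NumberField M] {K : Type} [Field K]
    [NumberField K] (L : Type) [Field L] [NumberField L] [IsGalois ℚ L] (i : M →+* L) (j : K →+* L)
    (h : L ≃ₐ[ℚ] L) (σ : M ≃ₐ[ℚ] M) (hσ : ∀ x : M, h (i x) = i (σ x))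
    (hj : ∀ y : K, h (j y) = j y)
    (hc : ∀ ν : L ≃ₐ[ℚ] L, (∀ x : M, ν (i x) = i x) → (∀ z : L, h (ν z) = ν (h z)) → ν = 1) :
    Exceptional M σ K := by
  refine ⟨L, inferInstance, inferInstance, i, inferInstance, fun τ hτ => ?_⟩
  have hinv : ∀ ν : L ≃ₐ[ℚ] L, (∀ x : M, ν (i x) = i x) → ∀ x : M, ν⁻¹ (i x) = i x := by
    intro ν hν x
    have h1 : ν⁻¹ (ν (i x)) = i x := by
      change (ν⁻¹ * ν) (i x) = i x
      rw [inv_mul_cancel]; rfl
    rwa [hν] at h1
  let N : Subgroup (L ≃ₐ[ℚ] L) :=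
    { carrier := {ν | ∀ x : M, ν (i x) = i x}
      mul_mem' := by
        intro a b ha hb x
        change a (b (i x)) = i x
        rw [hb, ha]
      one_mem' := fun x => rfl
      inv_mem' := by
        intro a ha
        exact hinv a ha }
  have hNm : ∀ ν, ν ∈ N ↔ ∀ x : M, ν (i x) = i x := fun ν => Iff.rfl
  have hhinv : ∀ x : M, h⁻¹ (i (σ x)) = i x := by
    intro x
    rw [← hσ]
    change (h⁻¹ * h) (i x) = i x
    rw [inv_mul_cancel]; rfl
  let f : N → N := fun x => ⟨h⁻¹ * (x.1⁻¹ * (h * x.1)), by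
    intro m
    change h⁻¹ (x.1⁻¹ (h (x.1 (i m)))) = i m
    rw [x.2 m, hσ, hinv _ x.2, hhinv]⟩
  have hf : Function.Injective f := by
    intro x y hxy
    have h1 : h⁻¹ * (x.1⁻¹ * (h * x.1)) = h⁻¹ * (y.1⁻¹ * (h * y.1)) := congrArg Subtype.val hxy
    have h2 : x.1⁻¹ * (h * x.1) = y.1⁻¹ * (h * y.1) := mul_left_cancel h1
    have h3 : h * (y.1 * x.1⁻¹) = (y.1 * x.1⁻¹) * h := by
      have h4 : y.1 * (x.1⁻¹ * (h * x.1)) * x.1⁻¹ = y.1 * (y.1⁻¹ * (h * y.1)) * x.1⁻¹ := by rw [h2]
      group at h4 ⊢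
      exact h4.symm
    have h5 := hc (y.1 * x.1⁻¹) (N.mul_mem y.2 (N.inv_mem x.2)) (fun z => by
      change (h * (y.1 * x.1⁻¹)) z = ((y.1 * x.1⁻¹) * h) z
      rw [h3])
    apply Subtype.ext
    exact (mul_inv_eq_one.1 h5).symm
  have hsurj : Function.Surjective f := Finite.surjective_of_injective hf
  obtain ⟨x, hx⟩ := hsurj ⟨h⁻¹ * τ, by
    intro m
    change h⁻¹ (τ (i m)) = i m
    rw [hτ, hhinv]⟩
  have h1 : h⁻¹ * (x.1⁻¹ * (h * x.1)) = h⁻¹ * τ := congrArg Subtype.val hx
  have h2 : x.1⁻¹ * (h * x.1) = τ := mul_left_cancel h1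
  refine ⟨(x.1⁻¹ : L ≃ₐ[ℚ] L).toRingEquiv.toRingHom.comp j, fun y => ?_⟩
  rw [← h2]
  change x.1⁻¹ (h (x.1 (x.1⁻¹ (j y)))) = x.1⁻¹ (j y)
  have h3 : x.1 (x.1⁻¹ (j y)) = j y := by
    change (x.1 * x.1⁻¹) (j y) = j y
    rw [mul_inv_cancel]; rfl
  rw [h3, hj]

/-- A group-theoretic statement: if `N` is normal, `H` has prime index `p`, `N ⊓ H = ⊥` and `H` is
not normal, then `N = ⊥` or some element of `H` commutes with no nontrivial element of `N`. -/
theorem group_fact {G : Type} [Group G] [Finite G] (N H : Subgroup G) [N.Normal] {p : ℕ}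
    (hp : p.Prime) (hH : H.index = p) (hNH : N ⊓ H = ⊥) (hn : ¬ H.Normal) :
    N = ⊥ ∨ ∃ h ∈ H, ∀ ν ∈ N, h * ν = ν * h → ν = 1 := by
  have h1 := Subgroup.relIndex_mul_index (show H ≤ N ⊔ H from le_sup_right)
  rw [hH] at h1
  have h2 : (N ⊔ H).index ∣ p := Dvd.intro_left _ h1
  rcases (Nat.dvd_prime hp).1 h2 with h3 | h3
  · right
    have htop : N ⊔ H = ⊤ := Subgroup.index_eq_one.1 h3
    have hcard : Nat.card N = p := by
      have h4 : N.IsComplement' H := by
        apply Subgroup.isComplement'_of_disjoint_and_mul_eq_univ (disjoint_iff.2 hNH)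
        rw [← Subgroup.normal_mul, htop]
        rfl
      rw [← h4.index_eq_card, hH]
    by_contra hcon
    push Not at hcon
    apply hn
    have hcomm : ∀ h ∈ H, ∀ ν ∈ N, h * ν = ν * h := by
      intro h hh ν hν
      let C : Subgroup G := N ⊓ Subgroup.centralizer {h}
      have hCN : C ≤ N := inf_le_left
      have hC : C = N := by
        apply Subgroup.eq_of_le_of_card_ge hCN
        have h5 : Nat.card C ∣ p := by rw [← hcard]; exact Subgroup.card_dvd_of_le hCN
        rcases (Nat.dvd_prime hp).1 h5 with h6 | h6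
        · exfalso
          obtain ⟨μ, hμ, hμ2, hμ3⟩ := hcon h hh
          have h7 : C = ⊥ := Subgroup.card_eq_one.1 h6
          have h8 : μ ∈ C := ⟨hμ, Subgroup.mem_centralizer_singleton_iff.2 hμ2.symm⟩
          rw [h7, Subgroup.mem_bot] at h8
          exact hμ3 h8
        · rw [h6, hcard]
      have h9 : ν ∈ C := by rw [hC]; exact hν
      exact (Subgroup.mem_centralizer_singleton_iff.1 h9.2).symm
    constructor
    intro x hx g
    have hg : g ∈ N ⊔ H := by rw [htop]; trivial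
    rw [Subgroup.mem_sup_of_normal_left] at hg
    obtain ⟨ν, hν, h, hh, rfl⟩ := hg
    have h4 : h * x * h⁻¹ ∈ H := H.mul_mem (H.mul_mem hh hx) (H.inv_mem hh)
    have h5 := hcomm _ h4 ν hν
    have h6 : ν * h * x * (ν * h)⁻¹ = h * x * h⁻¹ := by
      have : ν * h * x * (ν * h)⁻¹ = ν * (h * x * h⁻¹) * ν⁻¹ := by group
      rw [this, ← h5]
      group
    rw [h6]
    exact h4
  · left
    rw [h3] at h1
    have h4 : H.relIndex (N ⊔ H) = 1 := by
      have := hp.pos
      exact Nat.eq_of_mul_eq_mul_right this (by rw [h1, one_mul])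
    have h5 : N ⊔ H ≤ H := Subgroup.relIndex_eq_one.1 h4
    have h6 : N ≤ H := le_sup_left.trans h5
    rw [eq_bot_iff, ← hNH]
    exact le_inf le_rfl h6

/-- non-Galois fields of prime degree whose compositum with `M` is Galois are exceptional -/
theorem exceptional_prime {M : Type} [Field M] [NumberField M] [IsGalois ℚ M] {K : Type} [Field K]
    [NumberField K] {p : ℕ} (hp : p.Prime) (hK : Module.finrank ℚ K = p) (hng : ¬ IsGalois ℚ K)
    (L : Type) [Field L] [NumberField L] [IsGalois ℚ L] (i : M →+* L) (j : K →+* L)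
    (htop : i.fieldRange ⊔ j.fieldRange = ⊤) : ∃ σ : M ≃ₐ[ℚ] M, Exceptional M σ K := by
  let _ : Algebra M L := i.toAlgebra
  have hsc : IsScalarTower ℚ M L := IsScalarTower.of_algebraMap_eq' (Subsingleton.elim _ _)
  let N : Subgroup (L ≃ₐ[ℚ] L) := (AlgEquiv.restrictNormalHom (F := ℚ) (K₁ := L) M).ker
  have hNm : ∀ ν : L ≃ₐ[ℚ] L, ν ∈ N ↔ ∀ x : M, ν (i x) = i x := by
    intro ν
    have hres : ∀ x : M, i ((AlgEquiv.restrictNormalHom (F := ℚ) (K₁ := L) M ν) x) = ν (i x) :=
      fun x => AlgEquiv.restrictNormal_commutes ν M x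
    constructor
    · intro h x
      have h1 : AlgEquiv.restrictNormalHom (F := ℚ) (K₁ := L) M ν = 1 := h
      rw [← hres, h1]
      rfl
    · intro h
      change AlgEquiv.restrictNormalHom (F := ℚ) (K₁ := L) M ν = 1
      ext x
      apply i.injective
      rw [hres, h]
      rfl
  have hN : N.Normal := inferInstance
  let F : IntermediateField ℚ L := j.toRatAlgHom.fieldRange
  let H : Subgroup (L ≃ₐ[ℚ] L) := F.fixingSubgroup
  have hHm : ∀ ν : L ≃ₐ[ℚ] L, ν ∈ H ↔ ∀ y : K, ν (j y) = j y := by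
    intro ν
    rw [IntermediateField.mem_fixingSubgroup_iff]
    constructor
    · intro h y
      exact h (j y) ⟨y, rfl⟩
    · rintro h x ⟨y, rfl⟩
      exact h y
  let e : K ≃ₐ[ℚ] F := AlgEquiv.ofInjectiveField j.toRatAlgHom
  have hidx : H.index = p := by
    rw [← IntermediateField.finrank_eq_fixingSubgroup_index, ← hK]
    exact e.toLinearEquiv.finrank_eq.symm
  have hNH : N ⊓ H = ⊥ := by
    rw [eq_bot_iff]
    rintro ν ⟨h1, h2⟩
    have h1' := (hNm ν).1 h1
    have h2' := (hHm ν).1 h2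
    rw [Subgroup.mem_bot]
    have h3 : i.fieldRange ⊔ j.fieldRange ≤ (ν.toRingEquiv.toRingHom).eqLocusField (RingHom.id L) := by
      apply sup_le
      · rintro _ ⟨x, rfl⟩
        exact h1' x
      · rintro _ ⟨y, rfl⟩
        exact h2' y
    rw [htop] at h3
    ext z
    exact h3 (show z ∈ (⊤ : Subfield L) from trivial)
  have hHn : ¬ H.Normal := by
    intro h
    apply hng
    have h1 : IsGalois ℚ (IntermediateField.fixedField H) := IsGalois.of_fixedField_normal_subgroup H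
    have h2 : IntermediateField.fixedField H = F := IsGalois.fixedField_fixingSubgroup F
    rw [h2] at h1
    exact IsGalois.of_algEquiv e.symm
  rcases group_fact N H hp hidx hNH hHn with h | ⟨h, hh, hc⟩
  · refine ⟨1, L, inferInstance, inferInstance, i, inferInstance, fun τ hτ => ⟨j, fun y => ?_⟩⟩
    have h1 : τ ∈ N := (hNm τ).2 hτ
    rw [h, Subgroup.mem_bot] at h1
    rw [h1]
    rfl
  · refine ⟨AlgEquiv.restrictNormalHom (F := ℚ) (K₁ := L) M h, ?_⟩
    refine exceptional_of_comm L i j h _ (fun x => ?_) ((hHm h).1 hh) ?_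
    · exact (AlgEquiv.restrictNormal_commutes h M x).symm
    · intro ν hν hcomm
      exact hc ν ((hNm ν).2 hν) (by ext z; exact hcomm z)

end Pool.Agent.H62.Exc
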