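import Pool.Graph.R_seed8.W401.Cheb.Main

set_option autoImplicit false

/-!
# Primes of degree one in exceptional fields
-/

namespace Pool.Agent.H62.Exc

open NumberField Pool.Agent.W401.Cheb

/-- In some Galois number field `L` containing `M`, every automorphism that restricts to `σ` on `M`
fixes some conjugate of `K` element by element. -/
def Exceptional (M : Type) [Field M] [NumberField M] (σ : M ≃ₐ[ℚ] M) (K : Type) [Field K]
    [NumberField K] : Prop :=
  ∃ (L : Type) (_ : Field L) (_ : NumberField L) (i : M →+* L), IsGalois ℚ L ∧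
    ∀ τ : L ≃ₐ[ℚ] L, (∀ x : M, τ (i x) = i (σ x)) → ∃ φ : K →+* L, ∀ y : K, τ (φ y) = φ y

/-- a maximal ideal modulo which `y ^ p = y` and `p = 0` has norm `p` -/
theorem norm_of_frob {K : Type} [Field K] [NumberField K] {p : ℕ} (hp : p.Prime) (P : Ideal (𝓞 K))
    (hP : P.IsPrime) (hpP : (p : 𝓞 K) ∈ P) (hy : ∀ y : 𝓞 K, y ^ p - y ∈ P) :
    Ideal.absNorm P = p := by
  have hP0 : P ≠ ⊥ := by
    rintro rfl
    rw [Ideal.mem_bot] at hpP
    exact hp.ne_zero (by exact_mod_cast hpP)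
  have hPm : P.IsMaximal := hP.isMaximal hP0
  let _ : Field (𝓞 K ⧸ P) := Ideal.Quotient.field P
  have hfin : Finite (𝓞 K ⧸ P) := Ideal.finiteQuotientOfFreeOfNeBot P hP0
  have : Fintype (𝓞 K ⧸ P) := Fintype.ofFinite _
  have : Fact p.Prime := ⟨hp⟩
  have hchar : CharP (𝓞 K ⧸ P) p := by
    rw [CharP.charP_iff_prime_eq_zero hp, ← map_natCast (Ideal.Quotient.mk P)]
    exact Ideal.Quotient.eq_zero_iff_mem.mpr hpP
  have hx : ∀ x : 𝓞 K ⧸ P, x ^ p = x := by
    intro x
    obtain ⟨y, rfl⟩ := Ideal.Quotient.mk_surjective x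
    rw [← map_pow, ← sub_eq_zero, ← map_sub]
    exact Ideal.Quotient.eq_zero_iff_mem.mpr (hy y)
  have hle : Fintype.card (𝓞 K ⧸ P) ≤ p := by
    classical
    have hne : (Polynomial.X ^ p - Polynomial.X : Polynomial (𝓞 K ⧸ P)) ≠ 0 :=
      FiniteField.X_pow_card_sub_X_ne_zero _ hp.one_lt
    have h1 : (Finset.univ : Finset (𝓞 K ⧸ P)) ⊆
        (Polynomial.X ^ p - Polynomial.X : Polynomial (𝓞 K ⧸ P)).roots.toFinset := by
      intro x _
      rw [Multiset.mem_toFinset, Polynomial.mem_roots hne]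
      simp [hx x]
    have h2 := Finset.card_le_card h1
    rw [Finset.card_univ] at h2
    refine h2.trans ((Multiset.toFinset_card_le _).trans ((Polynomial.card_roots' _).trans ?_))
    rw [FiniteField.X_pow_card_sub_X_natDegree_eq _ hp.one_lt]
  have hge : p ≤ Fintype.card (𝓞 K ⧸ P) := by
    have h1 := Fintype.card_le_of_injective _ (ZMod.castHom (dvd_refl p) (𝓞 K ⧸ P)).injective
    rwa [ZMod.card] at h1
  rw [Ideal.absNorm_apply, Submodule.cardQuot_apply, Nat.card_eq_fintype_card]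
  omega

theorem exists_norm {M : Type} [Field M] [NumberField M] [IsGalois ℚ M] {σ : M ≃ₐ[ℚ] M} {K : Type}
    [Field K] [NumberField K] (hK : Exceptional M σ K) (p : ℕ) [Fact p.Prime] (hT : TorAt M p)
    (ψ : 𝓞 M →+* AlgebraicClosure (ZMod p)) (hψ : HasFrob p ψ σ) :
    ∃ P : Ideal (𝓞 K), Ideal.absNorm P = p := by
  have hp : p.Prime := Fact.out
  obtain ⟨L, _, _, i, hL, hi⟩ := hK
  let _ : Algebra M L := i.toAlgebra
  have hsc : IsScalarTower ℚ M L := IsScalarTower.of_algebraMap_eq' (Subsingleton.elim _ _)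
  set P : Ideal (𝓞 M) := RingHom.ker ψ with hPdef
  have hPp : P.IsPrime := RingHom.ker_isPrime ψ
  obtain ⟨Q, -, hQ, hQP⟩ := Ideal.exists_ideal_over_prime_of_isIntegral P (⊥ : Ideal (𝓞 L)) (by
    intro x hx
    have h1 : (algebraMap (𝓞 M) (𝓞 L)) x = 0 := hx
    have h2 : x = 0 := (FaithfulSMul.algebraMap_eq_zero_iff (𝓞 M) (𝓞 L)).1 h1
    rw [h2]
    exact P.zero_mem)
  have hmem : ∀ x : 𝓞 M, algebraMap (𝓞 M) (𝓞 L) x ∈ Q → ψ x = 0 := by
    intro x hx
    have h1 : x ∈ Ideal.comap (algebraMap (𝓞 M) (𝓞 L)) Q := hx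
    rw [hQP] at h1
    exact h1
  have hpP : (p : 𝓞 M) ∈ P := by
    rw [hPdef, RingHom.mem_ker, map_natCast]
    exact CharP.cast_eq_zero _ p
  have hpQ : (p : 𝓞 L) ∈ Q := by
    have h1 : (p : 𝓞 M) ∈ Ideal.comap (algebraMap (𝓞 M) (𝓞 L)) Q := by rw [hQP]; exact hpP
    have h2 : algebraMap (𝓞 M) (𝓞 L) (p : 𝓞 M) ∈ Q := h1
    rwa [map_natCast] at h2
  have hQ0 : Q ≠ ⊥ := by
    rintro rfl
    rw [Ideal.mem_bot] at hpQ
    exact hp.ne_zero (by exact_mod_cast hpQ)
  have hfin : Finite (𝓞 L ⧸ Q) := Ideal.finiteQuotientOfFreeOfNeBot Q hQ0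
  obtain ⟨τ, hτ⟩ := IsArithFrobAt.exists_of_isInvariant ℤ (L ≃ₐ[ℚ] L) Q
  have hcard : Nat.card (ℤ ⧸ Q.under ℤ) = p := by
    have h1 : Ideal.span {(p : ℤ)} = Q.under ℤ := by
      have hm : (Ideal.span {(p : ℤ)}).IsMaximal :=
        PrincipalIdealRing.isMaximal_of_irreducible (Nat.prime_iff_prime_int.mp hp).irreducible
      refine hm.eq_of_le (Ideal.IsPrime.ne_top (Ideal.comap_isPrime _ Q)) ?_
      rw [Ideal.span_singleton_le_iff_mem]
      change algebraMap ℤ (𝓞 L) (p : ℤ) ∈ Q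
      simpa using hpQ
    rw [← h1, Int.card_ideal_quot]
  have hτ' : ∀ x : 𝓞 L, τ • x - x ^ p ∈ Q := by
    intro x
    have := hτ x
    rw [hcard] at this
    exact this
  have hfrob : HasFrob p ψ (τ.restrictNormal M) := by
    intro x
    have h1 : algebraMap (𝓞 M) (𝓞 L) ((τ.restrictNormal M) • x - x ^ p) ∈ Q := by
      have h2 : algebraMap (𝓞 M) (𝓞 L) ((τ.restrictNormal M) • x) =
          τ • (algebraMap (𝓞 M) (𝓞 L) x) := by
        apply RingOfIntegers.coe_injective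
        exact AlgEquiv.restrictNormal_commutes τ M (x : M)
      rw [map_sub, map_pow, h2]
      exact hτ' _
    have h3 := hmem _ h1
    rw [map_sub, map_pow, sub_eq_zero] at h3
    exact h3
  have hσ : τ.restrictNormal M = σ := frob_unique hT hfrob hψ
  obtain ⟨φ, hφ⟩ := hi τ (fun x => by
    have := AlgEquiv.restrictNormal_commutes τ M x
    rw [hσ] at this
    exact this.symm)
  refine ⟨Ideal.comap (RingOfIntegers.mapRingHom φ) Q, norm_of_frob hp _ (Ideal.comap_isPrime _ Q) ?_ ?_⟩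
  · rw [Ideal.mem_comap, map_natCast]
    exact hpQ
  · intro y
    rw [Ideal.mem_comap, map_sub, map_pow]
    have h1 : τ • (RingOfIntegers.mapRingHom φ y) = RingOfIntegers.mapRingHom φ y := by
      apply RingOfIntegers.coe_injective
      exact hφ (y : K)
    have h2 := hτ' (RingOfIntegers.mapRingHom φ y)
    rw [h1] at h2
    rw [← neg_sub]
    exact Q.neg_mem h2

end Pool.Agent.H62.Exc
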